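import Pool.Agent.V11235.TP.Real

/-!
# Digit sums of algebraic irrational numbers between two places

No hypothesis is assumed.  Let `P` be an integer polynomial of degree `D ≥ 2` with leading
coefficient `± a`, let `ξ` be a real irrational root of `P`, and let `b ≥ 2`.  Let `S n` be the sum
of the first `n` base-`b` digits of `ξ` after the point, and `S' n` the sum of the complementary
digits `b - 1 - digit`.

1. If `g` divides a power of `b` and `a D!`, then `S m ^ D - S n ^ D` and `S' m ^ D - S' n ^ D` are at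
   least `((b - 1) g / a) (m - D n) - ε m` for all large `m` and all `n ≤ m`.
2. More generally `g` may be replaced by `c / W`, if the sum over `j < W` of the representatives in
   `[1, a D!]` of `b ^ j t` modulo `a D!` is at least `c` for all integers `t`.
3. For the binary digits of a root of a cubic with leading coefficient `± 1` the numbers `N m` of
   ones among the first `m` digits satisfy `N m ^ 3 - N n ^ 3 ≥ 3 (m - 3 n) - ε m`; the same holds for
   the zeros.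
4. Let `e` be `0` or `b - 1`, let `ξ` be an irrational real algebraic number of degree `D`, and
   `C > D`. Among the digits number `n + 1, ..., m`, where `m ≥ C n` is large, the number of digits
   different from `e` is at least `c m` divided by the `(D - 1)`-st power of the number of digits
   different from `e` among the first `m` digits.

For `n = 0` part 1 and part 2 are the theorem of the starting file `DigitSumsDegree` (the starting
point of which is the theorem of Bailey, Borwein, Crandall and Pomerance). The proof follows that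
file. The new points: a product `i_1 + ... + i_D = k` with `k > D n` of positions of digits has a
position `> n`, so that all the counts of representations beyond `D n` are differences
`S m ^ D - S n ^ D`; this includes the exceptional positions, which must be counted locally, since
`S m ^ D - S n ^ D` may be much smaller than `S m ^ (D - 1) log m`.
-/

set_option autoImplicit false

open Finset Polynomial

namespace Pool.Agent.Results.MP_f2f914_nt.DigitSumsBetweenPlaces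

/-- the `k`-th digit of `ξ` after the point in base `b` -/
noncomputable def digit (b : ℕ) (ξ : ℝ) (k : ℕ) : ℤ := ⌊ξ * (b : ℝ) ^ k⌋ % (b : ℤ)

/-- the sum of the first `n` digits -/
noncomputable def S (b : ℕ) (ξ : ℝ) (n : ℕ) : ℤ := ∑ k ∈ Icc 1 n, digit b ξ k

/-- the sum of the first `n` complementary digits -/
noncomputable def S' (b : ℕ) (ξ : ℝ) (n : ℕ) : ℤ := ∑ k ∈ Icc 1 n, (b - 1 - digit b ξ k)

/-- the number of `k` with `n < k ≤ m` for which the `k`-th digit is not `e` -/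
noncomputable def count (b : ℕ) (e : ℤ) (ξ : ℝ) (n m : ℕ) : ℕ :=
  ((Ioc n m).filter (fun k => digit b ξ k ≠ e)).card

lemma six_window (t : ℤ) (w : ℕ) :
    ((6 * w + 1 : ℕ) : ℤ) ≤ ∑ j ∈ range (2 * w + 1), (((2 : ℤ) ^ j * t - 1) % 6 + 1) := by
  induction w with
  | zero => simp; omega
  | succ w ih =>
    rw [show 2 * (w + 1) + 1 = (2 * w + 1) + 1 + 1 by ring, sum_range_succ, sum_range_succ]
    have h1 : ∃ u : ℤ, (2 : ℤ) ^ (2 * w + 1) * t = 2 * u := ⟨2 ^ (2 * w) * t, by ring⟩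
    obtain ⟨u, hu⟩ := h1
    have h2 : (2 : ℤ) ^ (2 * w + 1 + 1) * t = 4 * u := by
      rw [pow_succ, mul_comm ((2 : ℤ) ^ (2 * w + 1)) 2, mul_assoc, hu]; ring
    rw [hu, h2]
    have h3 : (6 : ℤ) ≤ ((2 * u - 1) % 6 + 1) + ((4 * u - 1) % 6 + 1) := by omega
    push_cast at ih ⊢
    linarith

lemma digit_range {b : ℕ} (hb : 2 ≤ b) (ξ : ℝ) (k : ℕ) :
    0 ≤ digit b ξ k ∧ digit b ξ k ≤ b - 1 := by
  have hb' : (0 : ℤ) < b := by exact_mod_cast (by omega : 0 < b)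
  unfold digit
  have h1 := Int.emod_nonneg ⌊ξ * (b : ℝ) ^ k⌋ hb'.ne'
  have h2 := Int.emod_lt_of_pos ⌊ξ * (b : ℝ) ^ k⌋ hb'
  exact ⟨h1, by omega⟩

/-- sums of nonnegative terms and numbers of terms -/
lemma sums (f : ℕ → ℤ) (B : ℤ) (hf : ∀ k, 0 ≤ f k ∧ f k ≤ B) {n m : ℕ} (hnm : n ≤ m) :
    0 ≤ ∑ k ∈ Icc 1 n, f k ∧
    (∑ k ∈ Icc 1 m, f k) - ∑ k ∈ Icc 1 n, f k = ∑ k ∈ Ioc n m, f k ∧
    ∑ k ∈ Ioc n m, f k ≤ B * (((Ioc n m).filter (fun k => f k ≠ 0)).card : ℤ) := by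
  refine ⟨sum_nonneg fun k _ => (hf k).1, ?_, ?_⟩
  · have e : Icc 1 m = Icc 1 n ∪ Ioc n m := by
      ext x; simp only [mem_Icc, mem_union, mem_Ioc]; omega
    rw [e, sum_union (by
      rw [disjoint_left]
      intro x h1 h2
      have := (mem_Icc.mp h1).2
      have := (mem_Ioc.mp h2).1
      omega)]
    ring
  · have h1 : ∑ k ∈ Ioc n m, f k = ∑ k ∈ (Ioc n m).filter (fun k => f k ≠ 0), f k := by
      rw [sum_filter_ne_zero]
    rw [h1]
    refine (sum_le_sum fun k _ => (hf k).2).trans ?_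
    rw [sum_const, nsmul_eq_mul, mul_comm]

/-- from digit sums to numbers of digits -/
lemma to_count (f : ℕ → ℤ) (b : ℕ) (hb : 2 ≤ b) (hf : ∀ k, 0 ≤ f k ∧ f k ≤ b - 1)
    (D : ℕ) (κ : ℝ) (hκ : 0 < κ) (C : ℝ) (hC : (D : ℝ) < C) (hD : 1 ≤ D)
    (h : ∀ ε : ℝ, 0 < ε → ∃ m0 : ℕ, ∀ m : ℕ, m0 ≤ m → ∀ n : ℕ, n ≤ m →
      κ * (m - D * n) - ε * m ≤
        ((∑ k ∈ Icc 1 m, f k : ℤ) : ℝ) ^ D - ((∑ k ∈ Icc 1 n, f k : ℤ) : ℝ) ^ D) :
    ∃ c : ℝ, 0 < c ∧ ∃ m0 : ℕ, ∀ n m : ℕ, m0 ≤ m → C * n ≤ m →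
      c * m ≤ (((Ioc n m).filter (fun k => f k ≠ 0)).card : ℝ) *
        (((Ioc 0 m).filter (fun k => f k ≠ 0)).card : ℝ) ^ (D - 1) := by
  have hDR : (1 : ℝ) ≤ D := by exact_mod_cast hD
  have hC1 : 1 < C := by linarith
  have hb2 : (2 : ℝ) ≤ b := by exact_mod_cast hb
  set θ : ℝ := 1 - D / C with hθ
  have hθ0 : 0 < θ := by
    rw [hθ, sub_pos, div_lt_one (by linarith)]
    exact hC
  obtain ⟨m0, h0⟩ := h (κ * θ / 2) (by positivity)
  set c : ℝ := κ * θ / 2 / (D * ((b : ℝ) - 1) ^ D) with hc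
  have hb1 : 0 < (b : ℝ) - 1 := by linarith
  refine ⟨c, by positivity, m0, fun n m hm hnm => ?_⟩
  have hnR : (0 : ℝ) ≤ n := Nat.cast_nonneg _
  have hmR : (0 : ℝ) ≤ m := Nat.cast_nonneg _
  have hle : n ≤ m := by
    have : (n : ℝ) ≤ m := by nlinarith
    exact_mod_cast this
  have h1 := h0 m hm n hle
  obtain ⟨s1, s2, s3⟩ := sums f (b - 1) hf hle
  obtain ⟨t1, t2, t3⟩ := sums f (b - 1) hf (Nat.zero_le m)
  set x : ℝ := ((∑ k ∈ Icc 1 m, f k : ℤ) : ℝ) with hx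
  set z : ℝ := ((∑ k ∈ Icc 1 n, f k : ℤ) : ℝ) with hz
  set u : ℝ := (((Ioc n m).filter (fun k => f k ≠ 0)).card : ℝ) with hu
  set v : ℝ := (((Ioc 0 m).filter (fun k => f k ≠ 0)).card : ℝ) with hv
  have hu0 : 0 ≤ u := Nat.cast_nonneg _
  have hv0 : 0 ≤ v := Nat.cast_nonneg _
  have hz0 : 0 ≤ z := by rw [hz]; exact_mod_cast s1
  have hxz : x - z ≤ (b - 1) * u := by
    have : (((∑ k ∈ Icc 1 m, f k) - ∑ k ∈ Icc 1 n, f k : ℤ) : ℝ) ≤
      (((b - 1) * (((Ioc n m).filter (fun k => f k ≠ 0)).card : ℤ) : ℤ) : ℝ) := by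
      rw [s2]; exact_mod_cast s3
    push_cast at this
    rw [hx, hz, hu]
    push_cast
    exact this
  have hxz0 : z ≤ x := by
    have : ∑ k ∈ Icc 1 n, f k ≤ ∑ k ∈ Icc 1 m, f k :=
      sum_le_sum_of_subset_of_nonneg (Icc_subset_Icc_right hle) fun k _ _ => (hf k).1
    rw [hx, hz]
    exact_mod_cast this
  have hxv : x ≤ (b - 1) * v := by
    have : (((∑ k ∈ Icc 1 m, f k) - ∑ k ∈ Icc 1 0, f k : ℤ) : ℝ) ≤
      (((b - 1) * (((Ioc 0 m).filter (fun k => f k ≠ 0)).card : ℤ) : ℤ) : ℝ) := by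
      rw [t2]; exact_mod_cast t3
    have e0 : ∑ k ∈ Icc 1 0, f k = 0 := by simp
    rw [e0] at this
    push_cast at this
    rw [hx, hv]
    push_cast
    linarith
  obtain ⟨d, rfl⟩ : ∃ d, D = d + 1 := ⟨D - 1, by omega⟩
  have h2 := Pool.Agent.V11235.TP.pow_diff_le x z hz0 hxz0 d
  have hx0 : 0 ≤ x := hz0.trans hxz0
  have h3 : (x - z) * x ^ d ≤ ((b - 1) * u) * ((b - 1) * v) ^ d := by
    apply mul_le_mul hxz (pow_le_pow_left₀ hx0 hxv _) (by positivity) (by positivity)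
  have h4 : κ * θ / 2 * m ≤ κ * (m - ((d + 1 : ℕ) : ℝ) * n) - κ * θ / 2 * m := by
    have e1 : ((d + 1 : ℕ) : ℝ) * n ≤ ((d + 1 : ℕ) : ℝ) / C * m := by
      rw [div_mul_eq_mul_div, le_div_iff₀ (by linarith)]
      have : ((d + 1 : ℕ) : ℝ) * n * C = ((d + 1 : ℕ) : ℝ) * (C * n) := by ring
      rw [this]
      exact mul_le_mul_of_nonneg_left hnm (by positivity)
    have e2 : κ * (((d + 1 : ℕ) : ℝ) * n) ≤ κ * (((d + 1 : ℕ) : ℝ) / C * m) :=
      mul_le_mul_of_nonneg_left e1 hκ.le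
    have e3 : κ * θ * m = κ * m - κ * (((d + 1 : ℕ) : ℝ) / C * m) := by rw [hθ]; ring
    linarith
  have h5 : κ * θ / 2 * m ≤ (((d + 1 : ℕ) : ℝ) * ((b : ℝ) - 1) ^ (d + 1)) * (u * v ^ d) := by
    have e4 : (((d : ℝ) + 1) * (((b - 1) * u) * ((b - 1) * v) ^ d)) =
        (((d + 1 : ℕ) : ℝ) * ((b : ℝ) - 1) ^ (d + 1)) * (u * v ^ d) := by
      rw [mul_pow]; push_cast; ring
    rw [← e4]
    have e5 := mul_le_mul_of_nonneg_left h3 (by positivity : (0 : ℝ) ≤ (d : ℝ) + 1)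
    linarith
  rw [Nat.add_sub_cancel, hc, div_mul_eq_mul_div, div_le_iff₀ (by positivity)]
  linarith

/-- The result. -/
theorem result :
    (∀ b : ℕ, 2 ≤ b → ∀ P : ℤ[X], 2 ≤ P.natDegree → ∀ ξ : ℝ, Irrational ξ → aeval ξ P = 0 →
      ∀ g v : ℕ, g ∣ b ^ v → (g : ℤ) ∣ P.leadingCoeff * (P.natDegree.factorial : ℤ) →
      ∀ ε : ℝ, 0 < ε → ∃ m₀ : ℕ, ∀ m : ℕ, m₀ ≤ m → ∀ n : ℕ, n ≤ m →
        ((b : ℝ) - 1) * g / |(P.leadingCoeff : ℝ)| * (m - P.natDegree * n) - ε * m ≤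
          (S b ξ m : ℝ) ^ P.natDegree - (S b ξ n : ℝ) ^ P.natDegree ∧
        ((b : ℝ) - 1) * g / |(P.leadingCoeff : ℝ)| * (m - P.natDegree * n) - ε * m ≤
          (S' b ξ m : ℝ) ^ P.natDegree - (S' b ξ n : ℝ) ^ P.natDegree) ∧
    (∀ b : ℕ, 2 ≤ b → ∀ P : ℤ[X], 2 ≤ P.natDegree → ∀ ξ : ℝ, Irrational ξ → aeval ξ P = 0 →
      ∀ W c : ℕ, 1 ≤ W → (∀ t : ℤ, (c : ℤ) ≤ ∑ j ∈ range W,
        (((b : ℤ) ^ j * t - 1) % (|P.leadingCoeff| * (P.natDegree.factorial : ℤ)) + 1)) →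
      ∀ ε : ℝ, 0 < ε → ∃ m₀ : ℕ, ∀ m : ℕ, m₀ ≤ m → ∀ n : ℕ, n ≤ m →
        ((b : ℝ) - 1) * c / (W * |(P.leadingCoeff : ℝ)|) * (m - P.natDegree * n) - ε * m ≤
          (S b ξ m : ℝ) ^ P.natDegree - (S b ξ n : ℝ) ^ P.natDegree ∧
        ((b : ℝ) - 1) * c / (W * |(P.leadingCoeff : ℝ)|) * (m - P.natDegree * n) - ε * m ≤
          (S' b ξ m : ℝ) ^ P.natDegree - (S' b ξ n : ℝ) ^ P.natDegree) ∧
    (∀ P : ℤ[X], P.natDegree = 3 → |P.leadingCoeff| = 1 → ∀ ξ : ℝ, Irrational ξ →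
      aeval ξ P = 0 → ∀ ε : ℝ, 0 < ε → ∃ m₀ : ℕ, ∀ m : ℕ, m₀ ≤ m → ∀ n : ℕ, n ≤ m →
        3 * ((m : ℝ) - 3 * n) - ε * m ≤ (count 2 0 ξ 0 m : ℝ) ^ 3 - (count 2 0 ξ 0 n : ℝ) ^ 3 ∧
        3 * ((m : ℝ) - 3 * n) - ε * m ≤ (count 2 1 ξ 0 m : ℝ) ^ 3 - (count 2 1 ξ 0 n : ℝ) ^ 3) ∧
    (∀ b : ℕ, 2 ≤ b → ∀ ξ : ℝ, IsAlgebraic ℚ ξ → Irrational ξ →
      ∀ e : ℤ, (e = 0 ∨ e = b - 1) → ∀ C : ℝ, ((minpoly ℚ ξ).natDegree : ℝ) < C →
        ∃ c : ℝ, 0 < c ∧ ∃ m₀ : ℕ, ∀ n m : ℕ, m₀ ≤ m → C * n ≤ m →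
          c * m ≤ (count b e ξ n m : ℝ) *
            (count b e ξ 0 m : ℝ) ^ ((minpoly ℚ ξ).natDegree - 1)) := by
  refine ⟨fun b hb P hD ξ hξ hP g v hg1 hg2 ε hε =>
      Pool.Agent.V11235.TP.gcd2 hb P hD hξ hP g v hg1 hg2 ε hε,
    fun b hb P hD ξ hξ hP W c hW hc ε hε =>
      Pool.Agent.V11235.TP.both2 hb P hD hξ hP W c hW hc ε hε, ?_, ?_⟩
  · intro P hD hl ξ hξ hP ε hε
    obtain ⟨w, hw⟩ := exists_nat_ge (4 / ε)
    obtain ⟨m0, h⟩ := Pool.Agent.V11235.TP.both2 (b := 2) le_rfl P (by omega) hξ hP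
      (2 * w + 1) (6 * w + 1) (by omega) (by
        intro t
        rw [hl, hD]
        have := six_window t w
        simpa [Nat.factorial] using this) (ε / 2) (by positivity)
    have hlR : |(P.leadingCoeff : ℝ)| = 1 := by
      have : ((|P.leadingCoeff| : ℤ) : ℝ) = 1 := by rw [hl]; norm_num
      rw [← this]; push_cast; rfl
    have hd : ∀ k, digit 2 ξ k = 0 ∨ digit 2 ξ k = 1 := by
      intro k
      have := digit_range (b := 2) le_rfl ξ k
      push_cast at this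
      omega
    have hIcc : ∀ m, Ioc 0 m = Icc 1 m := by
      intro m; ext x; simp only [mem_Ioc, mem_Icc]; omega
    have hs0 : ∀ m, (S 2 ξ m : ℝ) = count 2 0 ξ 0 m := by
      intro m
      unfold S count
      rw [hIcc, card_filter]
      push_cast
      refine sum_congr rfl fun k _ => ?_
      rcases hd k with h1 | h1 <;> simp [h1]
    have hs1 : ∀ m, (S' 2 ξ m : ℝ) = count 2 1 ξ 0 m := by
      intro m
      unfold S' count
      rw [hIcc, card_filter]
      push_cast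
      refine sum_congr rfl fun k _ => ?_
      rcases hd k with h1 | h1 <;> (simp [h1]; try norm_num)
    have hcmp : 3 - ε / 2 ≤ (((2 : ℕ) : ℝ) - 1) * ((6 * w + 1 : ℕ) : ℝ) /
        (((2 * w + 1 : ℕ) : ℝ) * |(P.leadingCoeff : ℝ)|) := by
      rw [hlR]
      have hw2 : 4 ≤ ε * w := by
        rw [div_le_iff₀ hε] at hw; linarith
      rw [le_div_iff₀ (by positivity)]
      push_cast
      nlinarith
    refine ⟨m0, fun m hm n hnm => ?_⟩
    obtain ⟨h1, h2⟩ := h m hm n hnm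
    rw [hD] at h1 h2
    set κ := (((2 : ℕ) : ℝ) - 1) * ((6 * w + 1 : ℕ) : ℝ) /
        (((2 * w + 1 : ℕ) : ℝ) * |(P.leadingCoeff : ℝ)|) with hκ
    have hκ0 : 0 ≤ κ := by
      rw [hκ, hlR]; push_cast
      have : (0 : ℝ) ≤ 2 - 1 := by norm_num
      positivity
    have hmR : (0 : ℝ) ≤ m := Nat.cast_nonneg _
    have hnR : (0 : ℝ) ≤ n := Nat.cast_nonneg _
    have hmono : ∀ e : ℤ, (count 2 e ξ 0 n : ℝ) ^ 3 ≤ (count 2 e ξ 0 m : ℝ) ^ 3 := by
      intro e
      apply pow_le_pow_left₀ (Nat.cast_nonneg _)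
      unfold count
      exact_mod_cast card_le_card (filter_subset_filter _ (Ioc_subset_Ioc_right hnm))
    have e1 : 3 * ((m : ℝ) - 3 * n) - ε * m ≤ max 0 (κ * (m - ((3 : ℕ) : ℝ) * n) - ε / 2 * m) := by
      push_cast
      rcases le_or_gt 0 ((m : ℝ) - 3 * n) with h3 | h3
      · refine le_trans ?_ (le_max_right _ _)
        have h5 := mul_le_mul_of_nonneg_right hcmp h3
        have h6 : ε / 2 * ((m : ℝ) - 3 * n) ≤ ε / 2 * m :=
          mul_le_mul_of_nonneg_left (by linarith) (by positivity)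
        linarith
      · refine le_trans ?_ (le_max_left _ _)
        have : 0 ≤ ε * m := by positivity
        linarith
    have f1 : (S 2 ξ m : ℝ) = ((∑ k ∈ Icc 1 m, Pool.Agent.H820R3.DG.digit 2 ξ k : ℤ) : ℝ) := rfl
    have f2 : (S 2 ξ n : ℝ) = ((∑ k ∈ Icc 1 n, Pool.Agent.H820R3.DG.digit 2 ξ k : ℤ) : ℝ) := rfl
    have f3 : (S' 2 ξ m : ℝ) =
      ((∑ k ∈ Icc 1 m, (((2 : ℕ) : ℤ) - 1 - Pool.Agent.H820R3.DG.digit 2 ξ k) : ℤ) : ℝ) := rfl
    have f4 : (S' 2 ξ n : ℝ) =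
      ((∑ k ∈ Icc 1 n, (((2 : ℕ) : ℤ) - 1 - Pool.Agent.H820R3.DG.digit 2 ξ k) : ℤ) : ℝ) := rfl
    rw [← f1, ← f2, hs0, hs0] at h1
    rw [← f3, ← f4, hs1, hs1] at h2
    constructor
    · exact e1.trans (max_le (by linarith [hmono 0]) h1)
    · exact e1.trans (max_le (by linarith [hmono 1]) h2)
  · intro b hb ξ halg hirr e he C hC
    -- an integer polynomial of the right degree
    obtain ⟨P, hPdeg, hP0⟩ : ∃ P : ℤ[X], P.natDegree = (minpoly ℚ ξ).natDegree ∧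
        aeval ξ P = 0 := by
      obtain ⟨c, hc, hcP⟩ := IsLocalization.integerNormalization_map_to_map
        (nonZeroDivisors ℤ) (minpoly ℚ ξ) |> fun h => (⟨h.choose, h.choose.2, h.choose_spec⟩ :
          ∃ c : ℤ, c ∈ nonZeroDivisors ℤ ∧
            (IsLocalization.integerNormalization (nonZeroDivisors ℤ) (minpoly ℚ ξ)).map
              (algebraMap ℤ ℚ) = c • minpoly ℚ ξ)
      refine ⟨IsLocalization.integerNormalization (nonZeroDivisors ℤ) (minpoly ℚ ξ), ?_, ?_⟩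
      · have h1 := congrArg natDegree hcP
        rw [natDegree_map_eq_of_injective (by exact Int.cast_injective)] at h1
        rw [h1]
        have hc0 : (c : ℚ) ≠ 0 := by
          exact_mod_cast nonZeroDivisors.ne_zero hc
        rw [zsmul_eq_mul, show ((c : ℤ) : ℚ[X]) = Polynomial.C (c : ℚ) by simp,
          natDegree_C_mul hc0]
      · have h1 := congrArg (aeval ξ) hcP
        rw [aeval_map_algebraMap] at h1
        rw [h1, map_zsmul, minpoly.aeval, smul_zero]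
    have hD : 2 ≤ P.natDegree := by
      rw [hPdeg]
      have hint : IsIntegral ℚ ξ := halg.isIntegral
      by_contra hcon
      have h1 : (minpoly ℚ ξ).natDegree = 1 := by
        have := minpoly.natDegree_pos hint
        omega
      have h2 := (minpoly.natDegree_eq_one_iff (A := ℚ) (x := ξ)).mp h1
      obtain ⟨q, hq⟩ := h2
      exact hirr ⟨q, by simpa using hq⟩
    have hl0 : P.leadingCoeff ≠ 0 := by
      apply leadingCoeff_ne_zero.mpr
      rintro rfl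
      simp at hD
    have hbR : (2 : ℝ) ≤ b := by exact_mod_cast hb
    have hκ : 0 < ((b : ℝ) - 1) * ((1 : ℕ) : ℝ) / |(P.leadingCoeff : ℝ)| := by
      have h1 : 0 < |(P.leadingCoeff : ℝ)| := abs_pos.mpr (by exact_mod_cast hl0)
      have h2 : 0 < (b : ℝ) - 1 := by linarith
      push_cast
      positivity
    rw [← hPdeg] at hC ⊢
    rcases he with rfl | rfl
    · have h1 := to_count (fun k => digit b ξ k) b hb (digit_range hb ξ) P.natDegree _ hκ C hC
        (by omega) (fun ε hε => by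
          obtain ⟨m0, h⟩ := Pool.Agent.V11235.TP.gcd2 hb P hD hirr hP0 1 0 (by simp) (by simp)
            ε hε
          exact ⟨m0, fun m hm n hnm => (h m hm n hnm).1⟩)
      exact h1
    · have h1 := to_count (fun k => b - 1 - digit b ξ k) b hb (fun k => by
          have := digit_range hb ξ k
          constructor <;> omega) P.natDegree _ hκ C hC
        (by omega) (fun ε hε => by
          obtain ⟨m0, h⟩ := Pool.Agent.V11235.TP.gcd2 hb P hD hirr hP0 1 0 (by simp) (by simp)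
            ε hε
          exact ⟨m0, fun m hm n hnm => (h m hm n hnm).2⟩)
      obtain ⟨c, hc, m0, h2⟩ := h1
      refine ⟨c, hc, m0, fun n m hm hnm => ?_⟩
      have h3 := h2 n m hm hnm
      have h4 : ∀ n m : ℕ, (Ioc n m).filter (fun k => (b : ℤ) - 1 - digit b ξ k ≠ 0) =
          (Ioc n m).filter (fun k => digit b ξ k ≠ b - 1) := by
        intro n m
        apply filter_congr
        intro k _
        constructor
        · intro h5 h6
          exact h5 (by rw [h6]; ring)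
        · intro h5 h6
          exact h5 (by linarith)
      rw [h4, h4] at h3
      exact h3

end Pool.Agent.Results.MP_f2f914_nt.DigitSumsBetweenPlaces
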