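import Mathlib
import Pool.Agent.V1189.SC.Cons

/-!
# Algebraic relations of every degree between the digits of algebraic numbers

Let `D(X) = a_1 X + ⋯ + a_L X^L`, where the `a_i` are the digits of a real number in base `b`.
Counting coefficients, there are always relations `h_0 M_0 + ⋯ + h_m M_m ≡ 0 mod X^(L+1)` between
`m + 1` given monomials `M_j` in the digit polynomials `D_1, …, D_n` of `n` numbers, with
polynomials `h_j`, not all zero, of degree at most `L / (m + 1) + 1`.

For real algebraic numbers there are no other ones, asymptotically and in all bases at once, as soon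
as the monomials are linearly independent over `ℚ` at the numbers themselves:

* for an algebraic number `α` and every `r` smaller than the degree of `α`, the algebraic complexity
  of degree `r` of the first `L` digits of `α` is `L / (r + 1) + o(L)`;
* for real algebraic numbers `x_1, …, x_n` and any `m + 1` monomials which are linearly independent
  over `ℚ` at the fractional parts of the `x_i`, the complexity is `L / (m + 1) + o(L)`;
* in particular for `1, D_1, …, D_n` when `1, x_1, …, x_n` are linearly independent over `ℚ`.

The starting file `AlgebraicComplexity` has this for `r = 1`, for `r + 1 = deg α` and for monomials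
which form a basis of a number field; in general it has the lower bound `(1 / d - o(1)) L`, where `d`
is the degree of the field. New is the use of Schmidt's theorem on linear forms with algebraic
coefficients, which is derived in `Pool/Agent/V1189/SC/Schmidt.lean` from the subspace theorem of the
starting library.
-/

set_option autoImplicit false

namespace Pool.Agent.Results.MP_f2f914_nt.EveryDegree

open Finset Polynomial Module

/-- the `i`-th digit of `x` after the point in base `b` -/
noncomputable def digit (b : ℕ) (x : ℝ) (i : ℕ) : ℤ := ⌊x * (b : ℝ) ^ i⌋ % (b : ℤ)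

/-- the polynomial `a_1 X + a_2 X^2 + ⋯ + a_L X^L`, where `a_i` is the `i`-th digit of `x` after
the point in base `b` -/
noncomputable def digitPoly (b : ℕ) (x : ℝ) (L : ℕ) : ℚ[X] :=
  ∑ i ∈ Icc 1 L, C (digit b x i : ℚ) * X ^ i

/-- there is a nonzero polynomial `P` in `Y` of degree `≤ r` whose coefficients are polynomials in
`X` over `ℚ` of degree `≤ k` with `P(X, a_1 X + ⋯ + a_L X^L)` divisible by `X^(L+1)` -/
def AlgRelation (b : ℕ) (x : ℝ) (r L k : ℕ) : Prop :=
  ∃ P : ℚ[X][X], P ≠ 0 ∧ P.natDegree ≤ r ∧ (∀ j, (P.coeff j).natDegree ≤ k) ∧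
    X ^ (L + 1) ∣ P.eval (digitPoly b x L)

/-- the algebraic complexity of degree `r` of the first `L` digits of `x` in base `b`: the least
`k` for which there is a relation -/
noncomputable def algComplexity (b : ℕ) (x : ℝ) (r L : ℕ) : ℕ := sInf {k | AlgRelation b x r L k}

/-- there are polynomials `h_0, …, h_m` over `ℚ` of degree `≤ k`, not all zero, such that
`∑_j h_j ∏_i D_i ^ (E j i)` is divisible by `X^(L+1)`, where `D_i = a_1 X + ⋯ + a_L X^L` is formed
with the base `b` digits of `x_i` -/
def MonRelation (b : ℕ) {n m : ℕ} (x : Fin n → ℝ) (E : Fin (m + 1) → Fin n → ℕ) (L k : ℕ) : Prop :=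
  ∃ h : Fin (m + 1) → ℚ[X], h ≠ 0 ∧ (∀ j, (h j).natDegree ≤ k) ∧
    X ^ (L + 1) ∣ ∑ j, h j * ∏ i, digitPoly b (x i) L ^ E j i

/-- the least `k` for which there is such a relation between the monomials with exponents `E j`
in the digit polynomials of `x_1, …, x_n` -/
noncomputable def monComplexity (b : ℕ) {n m : ℕ} (x : Fin n → ℝ) (E : Fin (m + 1) → Fin n → ℕ)
    (L : ℕ) : ℕ := sInf {k | MonRelation b x E L k}

/-- (1) For every real algebraic number `α` and every `r` smaller than the degree of `α` the
algebraic complexity of degree `r` of the first `L` digits of `α` is `L / (r + 1) + o(L)`, uniformly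
in the base.

(2) Let `x_1, …, x_n` be real algebraic numbers. If the `m + 1` monomials with exponents `E j` in the
fractional parts of the `x_i` are linearly independent over `ℚ`, then the complexity of the first `L`
digits of `x_1, …, x_n` with respect to these monomials is `L / (m + 1) + o(L)`, uniformly in the
base. -/
theorem result :
    (∀ (α : ℝ) (r : ℕ), r < (minpoly ℚ α).natDegree →
      ∀ ε : ℝ, 0 < ε → ∃ L₀ : ℕ, ∀ L : ℕ, L₀ ≤ L → ∀ b : ℕ, 2 ≤ b →
        |(algComplexity b α r L : ℝ) - L / (r + 1)| < ε * L) ∧
    (∀ (n m : ℕ) (x : Fin n → ℝ) (E : Fin (m + 1) → Fin n → ℕ), (∀ i, IsAlgebraic ℚ (x i)) →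
      LinearIndependent ℚ (fun j => ∏ i, Int.fract (x i) ^ E j i) →
      ∀ ε : ℝ, 0 < ε → ∃ L₀ : ℕ, ∀ L : ℕ, L₀ ≤ L → ∀ b : ℕ, 2 ≤ b →
        |(monComplexity b x E L : ℝ) - L / (m + 1)| < ε * L) :=
  ⟨fun α r hα ε hε => Pool.Agent.V1189.SC.alg_complexity α r hα ε hε,
    fun _ _ x E halg hli ε hε => Pool.Agent.V1189.SC.mon_complexity x halg E hli ε hε⟩

end Pool.Agent.Results.MP_f2f914_nt.EveryDegree
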