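import Pool.Agent.H648R2.T.Final

/-!
# Algebraic numbers, sequences of small rank, and automata with several stacks

Let `ξ` be an irrational real algebraic number and `b ≥ 2`.  Suppose that `ξ` is the value
`∑ G(n) b^(-n)` of an integer sequence `G`, up to a finite sum of rational multiples of values
`∑ F_i(n) b^(-n)` of sequences `F_i` which are thin in bases `k_i`: of the `k^s` sections
`u ↦ F(W k^r + u)`, `u < k^r`, of the initial segment of length `k^(s+r)` only `ε k^s` are linearly
independent, for a suitable `s` depending on `ε > 0` and all large `r`.  Then `G` has no repetitions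
near the origin: for every `C` and all large `m` the windows `G(s), …, G(s+m-1)` and
`G(t), …, G(t+m-1)` are different for all `s < t ≤ C m`.

Thin sequences are the automatic and the `k`-regular ones (the rank is bounded) and, more
generally, the sequences computed from the base-`k` digits of `n` by (nondeterministic, weighted)
automata with any number of counters, and with stacks if the product of the numbers of stack
symbols is less than `k`; the automata may read the digits several times.

The case without `F_i` is the criterion of Adamczewski and Bugeaud; the case `G = 0` says that all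
the values above are rational or transcendental.

The proof is in the library files `Pool/Agent/H648R2/S` and `Pool/Agent/H648R2/T` of the starting
repository, which had not been handed in.  Idea: for given `m` the windows of length `m` of
`c = ∑ R_i F_i + G` at `D` places `s + τ_j` and at the `D` places `t + τ_j` (`τ_j` of order `m`) are
related by one nonzero vector `λ` of rational numbers which kills all the windows of all the `F_i`
at these places, since thin sequences have few linearly independent windows; if the windows of `G`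
repeat, then the differences are killed, and the subspace theorem applies to the sparse
combination `∑ λ_j (b^(s + τ_j) - b^(t + τ_j)) ξ`, which is too near to an integer.
-/

set_option autoImplicit false

namespace Pool.Agent.Results.MP_f2f914_nt.StackAutomata

open Pool.Agent.H648R2.T

/-- `F` is bounded by a power of `n + 1`. -/
def PolyBounded (F : ℕ → ℤ) : Prop := ∃ K : ℕ, ∀ n : ℕ, |F n| ≤ (K : ℤ) * ((n : ℤ) + 1) ^ K

/-- The matrix whose row with index `W < k ^ s` is the section `F(W k^r), …, F(W k^r + k^r - 1)`. -/
def sections (F : ℕ → ℤ) (k s r : ℕ) : Matrix (Fin (k ^ s)) (Fin (k ^ r)) ℚ :=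
  Matrix.of fun W u => (F ((W : ℕ) * k ^ r + (u : ℕ)) : ℚ)

/-- For every `T` there is an `s` such that the rank of the matrix of the sections is smaller than
`k ^ s / T` for all large `r`. -/
def SmallRank (F : ℕ → ℤ) (k : ℕ) : Prop :=
  ∀ T : ℕ, ∃ s r₀ : ℕ, ∀ r, r₀ ≤ r → T * ((sections F k s r).rank + 1) ≤ k ^ s

/-- The windows of length `m` of `G` at two different places up to `C m` are different, for all
large `m`. -/
def NoRepetitions (G : ℕ → ℤ) : Prop :=
  ∀ C : ℕ, ∃ N : ℕ, ∀ m, N ≤ m → ∀ s t, s < t → t ≤ C * m → ∃ i, i < m ∧ G (s + i) ≠ G (t + i)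

/-- Let `ξ` be an irrational algebraic number and `b ≥ 2`.
(1) If `ξ` is a finite sum of rational multiples of values `∑ F_i(n) b^(-n)`, with `F_i` of small
rank in base `k_i`, and of a value `∑ G(n) b^(-n)`, then `G` has no repetitions.
(2) The same for rational multiples of products of values of sequences computed by stack automata
from the base-`k_i` digits of `n`, if the product of the costs of the automata is less than `k_i`.
(3) So all finite sums of rational multiples of such products are rational or transcendental. -/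
theorem result :
    (∀ (b : ℕ), 2 ≤ b → ∀ ξ : ℝ, IsAlgebraic ℚ ξ → Irrational ξ →
      ∀ (ι : Type) [Fintype ι] (k : ι → ℕ) (F : ι → ℕ → ℤ),
        (∀ i, 2 ≤ k i ∧ PolyBounded (F i) ∧ SmallRank (F i) (k i)) →
      ∀ (R : ι → ℚ) (G : ℕ → ℤ), PolyBounded G →
        ξ = ∑ i, (R i : ℝ) * (∑' n, (F i n : ℝ) / (b : ℝ) ^ n) + ∑' n, (G n : ℝ) / (b : ℝ) ^ n →
        NoRepetitions G) ∧
    (∀ (b : ℕ), 2 ≤ b → ∀ ξ : ℝ, IsAlgebraic ℚ ξ → Irrational ξ →
      ∀ (ι : Type) [Fintype ι] (k : ι → ℕ) (M : ι → List StackAutomaton),
        (∀ i, ((M i).map StackAutomaton.cost).prod < k i ∧ 2 ≤ k i) →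
      ∀ (R : ι → ℚ) (G : ℕ → ℤ), PolyBounded G →
        ξ = ∑ i, (R i : ℝ) *
          ((M i).map fun A => ∑' n, (A.out (k i) n : ℝ) / (b : ℝ) ^ n).prod +
            ∑' n, (G n : ℝ) / (b : ℝ) ^ n →
        NoRepetitions G) ∧
    (∀ (b : ℕ), 2 ≤ b → ∀ (ι : Type) [Fintype ι] (k : ι → ℕ) (M : ι → List StackAutomaton),
        (∀ i, ((M i).map StackAutomaton.cost).prod < k i ∧ 2 ≤ k i) → ∀ R : ι → ℚ,
      Irrational (∑ i, (R i : ℝ) *
          ((M i).map fun A => ∑' n, (A.out (k i) n : ℝ) / (b : ℝ) ^ n).prod) →
      Transcendental ℚ (∑ i, (R i : ℝ) *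
          ((M i).map fun A => ∑' n, (A.out (k i) n : ℝ) / (b : ℝ) ^ n).prod)) := by
  have key : ∀ (b : ℕ), 2 ≤ b → ∀ ξ : ℝ, IsAlgebraic ℚ ξ → Irrational ξ →
      ∀ (ι : Type) [Fintype ι] (k : ι → ℕ) (M : ι → List StackAutomaton),
        (∀ i, ((M i).map StackAutomaton.cost).prod < k i ∧ 2 ≤ k i) →
      ∀ (R : ι → ℚ) (G : ℕ → ℤ), PolyBounded G →
        ξ = ∑ i, (R i : ℝ) *
          ((M i).map fun A => ∑' n, (A.out (k i) n : ℝ) / (b : ℝ) ^ n).prod +
            ∑' n, (G n : ℝ) / (b : ℝ) ^ n →
        NoRepetitions G := fun b hb ξ hξ hirr ι _ k M hk R G hG h C =>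
    main_machines b hb ξ hξ hirr k (fun i => (hk i).2) M (fun i => (hk i).1) R G
      (polyB_iff hG) h C
  refine ⟨fun b hb ξ hξ hirr ι _ k F hF R G hG h C => ?_, key, ?_⟩
  · exact main_series b hb ξ hξ hirr k (fun i => (hF i).1) F
      (fun i => thin_of_matrix (hF i).2.2) (fun i => polyB_iff (hF i).2.1) R G (polyB_iff hG) h C
  · intro b hb ι _ k M hk R hirr halg
    have h0 : PolyBounded (fun _ => (0 : ℤ)) := ⟨0, fun n => by simp⟩
    obtain ⟨N, hN⟩ := key b hb _ halg hirr ι k M hk R (fun _ => (0 : ℤ)) h0 (by simp) 1
    obtain ⟨i, -, hi⟩ := hN (N + 1) (by omega) 0 1 (by omega) (by omega)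
    exact hi rfl

end Pool.Agent.Results.MP_f2f914_nt.StackAutomata
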