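import Pool.Agent.V11191.HS
import Pool.Agent.TH842.HS.Power
import Pool.Agent.Results.MP_f2f914_nt.AllAlgebraicExponentThree

/-!
# Machines with several stacks which write the digits of an algebraic number

A machine with one stack and no input writes an eventually periodic word, and machines with two
stacks can write the digits of every computable number.  Between these two cases there is a
quantitative statement: if a deterministic machine with finitely many stacks writes the base `b`
digits (or the signed digits of any other expansion with bounded integer digits) of a real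
algebraic irrational number, then for every stack `k₀`, which may be used freely and without any
bound for the time, it has to remove symbols from the OTHER stacks at least
`c (log N)^3 / (log log N)^5` times before `N` symbols are written.  For many algebraic numbers
and bases (for instance for `√2` and all odd bases) the bound is even `c N^δ`.

Proof.  While no symbol is removed from the other stacks, their contents influence the machine only
through their top symbols, which change in a way known to the machine; so the machine behaves as a
machine with one stack, and a machine with one stack writes, and leaves in its stack, a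
concatenation of boundedly many powers of words of bounded length.  Reading a concatenation of
few powers it writes again few powers (`Pool.Agent.W979.HS`, starting library, not handed in).
Hence with `E` accesses to the other stacks the word written satisfies `w_(i+P) = w_i`
for a fixed `P` outside of `O(E + 1)` places.  The lower bounds for the number of failures of such
relations are the starting results `AllAlgebraicExponentThree` and `MP_7e9a3a_nt.DigitRelations`.
-/

set_option autoImplicit false

namespace Pool.Agent.Results.MP_f2f914_nt.StackMachines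

open Finset Filter Pool.Agent.W979.HS NumberField IntermediateField

/-- From the place `s` on the word written by the machine codes the terms `g 1, g 2, …`; the
symbol `d` stands for the integer `φ d`.  (The first `s` symbols are arbitrary, and it is not
required that the machine writes infinitely many symbols.) -/
def Writes (M : StackMachine) (s : ℕ) (φ : ℕ → ℤ) (g : ℕ → ℤ) : Prop :=
  ∀ T i d, (M.output T)[s + i]? = some d → φ d = g (i + 1)

open Classical in
/-- the number of the first `T` steps in which a nonempty stack other than `k₀` is popped -/
noncomputable def outsidePops (M : StackMachine) (k₀ : M.ι) (T : ℕ) : ℕ :=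
  ((range T).filter (M.PopOutside k₀)).card

/-- the `k`-th digit after the point of `x` in base `b` -/
noncomputable def digit (b : ℕ) (x : ℝ) (k : ℕ) : ℤ := ⌊(b : ℝ) ^ k * x⌋ % b

/-- Whenever a machine writes the digits of `x` in base `b` and `k₀` is one of its stacks, then it
pops the other stacks at least `c N^δ` times before it has written `N` symbols, `N ≥ N0`; here
`c, δ > 0` and `N0` depend on the machine only. -/
def PowerBound (x : ℝ) (b : ℕ) : Prop :=
  ∀ (M : StackMachine) (k₀ : M.ι) (s : ℕ), Writes M s (fun d => (d : ℤ)) (digit b x) →
    ∃ c δ : ℝ, 0 < c ∧ 0 < δ ∧ ∃ N0 : ℕ, ∀ N T : ℕ, N0 ≤ N → N ≤ (M.output T).length →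
      c * (N : ℝ) ^ δ ≤ outsidePops M k₀ T

theorem power_of_fail (x : ℝ) (b : ℕ) (hb : 2 ≤ b)
    (h : Pool.Agent.Results.MP_7e9a3a_nt.DigitRelations.RelationsFail x b) : PowerBound x b :=
  fun M k₀ s hw => Pool.Agent.TH842.HS.machine_pow b x
    (Pool.Agent.TH842.HS.rel_of_fail x b hb h) M k₀ s hw

/-- **Theorem.** Let `x` be a real algebraic number.

(1) Let `x` be irrational, `b ≥ 2` and `x = ∑ g_k b^(-k)` with bounded integers `g_k` (the usual
digits, or any expansion with signed digits).  If a machine with several stacks writes
`g_1, g_2, …`, then for each stack `k₀` the number of pops of the other stacks before `N` symbols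
are written is at least `c (log N)^3 / (log log N)^5` for all large `N`, with some `c > 0`.

(2) If `p` is a prime such that all primes of `ℚ(x)` above `p` are ramified, then in all bases
`b ≥ 2` not divisible by `p` this number is at least `c N^δ` for the usual digits of `x`.

(3) If `ℚ(x)` has a subfield `L ≠ ℚ` which is Galois over `ℚ`, then there is a prime `p` such that
the same is true in all bases `b ≥ 2` not divisible by `p`. -/
theorem result (x : ℝ) (halg : IsAlgebraic ℚ x) :
    (Irrational x → ∀ b : ℕ, 2 ≤ b → ∀ (g : ℕ → ℤ) (G : ℤ), (∀ k, |g k| ≤ G) →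
      HasSum (fun k : ℕ => (g k : ℝ) / (b : ℝ) ^ k) x →
      ∀ (M : StackMachine) (k₀ : M.ι) (s : ℕ) (φ : ℕ → ℤ), Writes M s φ g →
        ∃ c : ℝ, 0 < c ∧ ∃ N0 : ℕ, ∀ N T : ℕ, N0 ≤ N → N ≤ (M.output T).length →
          c * ((Real.log N) ^ 3 / (Real.log (Real.log N)) ^ 5) ≤ outsidePops M k₀ T) ∧
    (∀ p : ℕ, p.Prime →
      (∀ P : Ideal (𝓞 ℚ⟮x⟯), P.IsPrime → (p : 𝓞 ℚ⟮x⟯) ∈ P → (p : 𝓞 ℚ⟮x⟯) ∈ P ^ 2) →
      ∀ b : ℕ, 2 ≤ b → ¬ p ∣ b → PowerBound x b) ∧
    (∀ L : IntermediateField ℚ ℚ⟮x⟯, L ≠ ⊥ → IsGalois ℚ L → ∃ p : ℕ, p.Prime ∧
      ∀ b : ℕ, 2 ≤ b → ¬ p ∣ b → PowerBound x b) := by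
  refine ⟨?_, ?_, ?_⟩
  · intro hirr b hb g G hg hsum M k₀ s φ hw
    refine Pool.Agent.V11191.HS.machine_access' g φ
      (fun N : ℕ => (Real.log N) ^ 3 / (Real.log (Real.log N)) ^ 5) (tend 3 5 (by norm_num))
      (fun P hP => ?_) M k₀ s hw
    obtain ⟨c, hc, N0, h⟩ :=
      Pool.Agent.Results.MP_f2f914_nt.AllAlgebraicExponentThree.result x halg hirr b hb g G hg hsum
        P (fun j => if j = 0 then (1 : ℤ) else if j = P then -1 else 0) ⟨0, by omega, by simp⟩ 0
    refine ⟨c, hc, N0, fun N hN => ?_⟩
    rw [← Pool.Agent.V11191.HS.rel_conv g P hP N, ← mul_div_assoc]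
    exact h N hN
  · intro p hp h b hb hpb
    exact power_of_fail x b hb
      ((Pool.Agent.Results.MP_7e9a3a_nt.DigitRelations.result x halg).1 p hp h b hb hpb)
  · intro L hL hgal
    obtain ⟨p, hp, h⟩ := (Pool.Agent.Results.MP_7e9a3a_nt.DigitRelations.result x halg).2 L hL hgal
    exact ⟨p, hp, fun b hb hpb => power_of_fail x b hb (h b hb hpb)⟩

end Pool.Agent.Results.MP_f2f914_nt.StackMachines
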